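import Pool.Agent.N469.GG.Deg
import Pool.Agent.W2helper30.AN.Pair1
import Pool.Agent.W2helper30.AN.Gold
import Pool.Agent.W2helper30.AN.Ex
import Pool.Agent.W2helper30.AN.Big
import Pool.Agent.Results.MP_443e5f_co.AlmostAllVertices

/-!
# The Goldbach graphs: the vertices near almost all members of sparse families `c₀ + κ ⌊U f(x₀ + 1 / i)⌋` are in the bounded part

Definitions used, from the starting file `Pool.Agent.Results.MP_443e5f_co.AlmostAllVertices`: the finite Goldbach graph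
`goldbach n` on `{0, 2, 4, …, 2 n}` and the finite near Goldbach graph `nearGoldbach n` on `{2, 4, …, 2 n}`.

The starting file shows that after the removal of at most `n / log ^ V n` vertices there are at most `C` components, all of
diameter at most `C`. The vertices of large degree are added to the bounded part as in helper469's file `SmoothVertices`
(and the first part of the proof is that of helper193's file `NonIntegralOrderVertices`); the new part is that the
vertices near almost all members of very sparse families (of as few as `exp ((log n) ^ (2 / 3 + ε))` members) have a large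
degree. The degree is the number of the representations of the vertex as a sum or as a difference of two primes.

Method: Vinogradov's mean value method for the sums of `e(θ f(x₀ + 1 / i))` with a uniform saving, and the inequality of
Kusmin and Landau for the small frequencies; a discrete Fejer kernel for the passage to integer parts. The passage from
such exponential sums to sums and differences of primes is from the starting files (`Pool.Agent.W93`, `Pool.Agent.TH872`,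
`Pool.Agent.N625.DY`, `Pool.Agent.Y885`).
-/

set_option autoImplicit false

namespace Pool.Agent.Results.MP_443e5f_co.AnalyticSparseFamilies

open Finset Filter
open Pool.Agent.Results.MP_443e5f_co.AlmostAllVertices (goldbach nearGoldbach)
open Pool.Agent.W2helper30.AN (Ord AlmostA Rg vl)

/-- `f` is real analytic at `x₀`, and `K ≥ 1` is the order of the zero of `f - f x₀` at `x₀` -/
def OrderAt (f : ℝ → ℝ) (x₀ : ℝ) (K : ℕ) : Prop :=
  AnalyticAt ℝ f x₀ ∧ 1 ≤ K ∧ (∀ j : ℕ, 1 ≤ j → j < K → iteratedDeriv j f x₀ = 0) ∧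
    iteratedDeriv K f x₀ ≠ 0

/-- the range of the parameters: `M ^ (K + δ₀) ≤ U ≤ exp ((log M) ^ (3 / 2 - ε₀))` -/
def InRange (K : ℕ) (δ₀ ε₀ : ℝ) (M : ℕ) (U : ℝ) : Prop :=
  (M : ℝ) ^ ((K : ℝ) + δ₀) ≤ U ∧ U ≤ Real.exp ((Real.log M) ^ (3 / 2 - ε₀))

open Classical in
/-- Almost all the integers `v = c₀ + κ ⌊U f(x₀ + 1 / i)⌋`, `M < i ≤ 2 M`, up to a proportion of at most `τ` of the `i`,
have the property `P`. -/
def Almost (f : ℝ → ℝ) (x₀ U : ℝ) (M : ℕ) (κ c₀ : ℤ) (τ : ℝ) (P : ℤ → Prop) : Prop :=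
  (((Ioc M (2 * M)).filter (fun i : ℕ => ¬ P (c₀ + κ * ⌊U * f (x₀ + 1 / i)⌋))).card : ℝ) ≤ τ * M

lemma almost_of {f : ℝ → ℝ} {x₀ U : ℝ} {M : ℕ} {κ c₀ : ℤ} {τ : ℝ} {P Q : ℤ → Prop}
    (h : AlmostA f x₀ U M κ c₀ τ P) (hPQ : ∀ n, P n → Q n) : Almost f x₀ U M κ c₀ τ Q := by
  have h1 := h.mono hPQ
  unfold AlmostA vl at h1
  unfold Almost
  convert h1

/-- All the vertices of `G` with at most `n / (log n) ^ V` exceptions belong to `X`, the subgraph of `G` induced on `X` has at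
most `C` connected components, any two vertices of the same component of this subgraph are at a distance of at most `C` in it,
and every vertex of `X` has at least `c n / (log n) ^ 2` neighbours in `X`. -/
def Bounded {T : Type} (G : SimpleGraph T) (X : Set T) (C : ℕ) (c : ℝ) (V n : ℕ) : Prop :=
  (Xᶜ.ncard : ℝ) ≤ n / Real.log n ^ V ∧
    Nat.card (G.induce X).ConnectedComponent ≤ C ∧
    (∀ u v : X, (G.induce X).Reachable u v → (G.induce X).dist u v ≤ C) ∧
    ∀ u : X, c * (n / Real.log n ^ 2) ≤ (((G.induce X).neighborSet u).ncard : ℝ)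

/-- `a` is a vertex of the Goldbach graph outside `X` or a vertex of the near Goldbach graph outside `Y`. -/
def Outside (n : ℕ) (X : Set {a : ℕ // Even a ∧ a ≤ 2 * n}) (Y : Set {a : ℕ // Even a ∧ 2 ≤ a ∧ a ≤ 2 * n}) (a : ℕ) : Prop :=
  (∃ h : Even a ∧ a ≤ 2 * n, (⟨a, h⟩ : {a : ℕ // Even a ∧ a ≤ 2 * n}) ∉ X) ∨
    ∃ h : Even a ∧ 2 ≤ a ∧ a ≤ 2 * n, (⟨a, h⟩ : {a : ℕ // Even a ∧ 2 ≤ a ∧ a ≤ 2 * n}) ∉ Y

/-- There are absolute constants `C` and `c > 0` such that for every `V` there are sets `X n` of vertices of the finite Goldbach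
graph `G_n` and `Y n` of vertices of the finite near Goldbach graph `G(n)` with the following properties.

(0) For all large `n`, all but at most `n / log ^ V n` vertices belong to `X n`, the subgraph induced on `X n` has at most `C`
components, all of diameter at most `C`, and all its degrees are at least `c n / log ^ 2 n`; and the same for `Y n`.

(1) Let `f` be real analytic at `x₀`, and let `K` be the order of `f - f x₀` at `x₀`; let `δ₀ > 0` and `0 < ε₀ < 1 / 2`, and let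
`κ ≠ 0`, `A`, `B`, `W` and `r` be fixed. For all large `M`, all real `U` with
`M ^ (K + δ₀) ≤ U ≤ exp ((log M) ^ (3 / 2 - ε₀))`, all integers `n` with `U / M ^ K ≤ B n` and `n ≤ (U / M ^ K) log ^ r U`, and
all integers `c₀` with `|c₀ + κ U f(x₀)| ≤ B n`, all the integers `v = c₀ + κ ⌊U f(x₀ + 1 / i)⌋`, `M < i ≤ 2 M`, with at most
`M / log ^ W U` exceptions, are such that ALL the vertices `a` with `|a - v| ≤ log ^ A U` belong to `X n` and to `Y n`.
(The integers `v` are in an interval of a length of the order of `U / M ^ K`, and they are `O(n)`.)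

(2) Part (1) applies to every function `f` which is real analytic at `x₀` and not constant near `x₀`, with a suitable `K`,
and with `K = 1` if the derivative of `f` at `x₀` is not zero; for example, to `f x = x`, `x₀ = 0`: the integers
`c₀ + κ ⌊U / i⌋`. -/
theorem result : (∃ (C : ℕ) (c : ℝ), 0 < c ∧ ∀ V : ℕ, ∃ (X : ∀ n : ℕ, Set {a : ℕ // Even a ∧ a ≤ 2 * n})
    (Y : ∀ n : ℕ, Set {a : ℕ // Even a ∧ 2 ≤ a ∧ a ≤ 2 * n}),
    (∃ n₀ : ℕ, ∀ n : ℕ, n₀ ≤ n → Bounded (goldbach n) (X n) C c V n ∧ Bounded (nearGoldbach n) (Y n) C c V n) ∧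
    ∀ (f : ℝ → ℝ) (x₀ : ℝ) (K : ℕ), OrderAt f x₀ K → ∀ δ₀ ε₀ : ℝ, 0 < δ₀ → 0 < ε₀ → ε₀ < 1 / 2 →
      ∀ (κ : ℤ), κ ≠ 0 → ∀ (A B W r : ℕ), ∃ M₀ : ℕ, ∀ M : ℕ, M₀ ≤ M → ∀ U : ℝ, InRange K δ₀ ε₀ M U →
      ∀ n : ℕ, U / (M : ℝ) ^ K ≤ B * n → (n : ℝ) ≤ U / (M : ℝ) ^ K * Real.log U ^ r →
      ∀ c₀ : ℤ, |(c₀ : ℝ) + κ * (U * f x₀)| ≤ B * n →
        Almost f x₀ U M κ c₀ (1 / Real.log U ^ W) (fun v => ∀ a : ℕ, |(a : ℝ) - v| ≤ Real.log U ^ A →
          ¬ Outside n (X n) (Y n) a)) ∧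
    (∀ (f : ℝ → ℝ) (x₀ : ℝ), AnalyticAt ℝ f x₀ → (¬ ∀ᶠ x in nhds x₀, f x = f x₀) → ∃ K : ℕ, OrderAt f x₀ K) ∧
    (∀ (f : ℝ → ℝ) (x₀ : ℝ), AnalyticAt ℝ f x₀ → deriv f x₀ ≠ 0 → OrderAt f x₀ 1) ∧
    OrderAt (fun x => x) 0 1 := by
  refine ⟨?_, fun f x₀ h1 h2 => Pool.Agent.W2helper30.AN.ord_exists h1 h2,
    fun f x₀ h1 h2 => Pool.Agent.W2helper30.AN.ord_one h1 h2,
    Pool.Agent.W2helper30.AN.ord_one (by fun_prop) (by simp)⟩
  obtain ⟨C, c, hc, hall⟩ := Pool.Agent.Results.MP_443e5f_co.AlmostAllVertices.result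
  obtain ⟨c₁, hc₁, n₁, hdeg⟩ := Pool.Agent.N469.GG.deg_low
  refine ⟨C * (C + 3) + C, min c (c₁ / 2), lt_min hc (by positivity), fun V => ?_⟩
  obtain ⟨n₂, h2⟩ := hall (V + 3)
  obtain ⟨n₃, h3⟩ := Pool.Agent.H373R2.T7.ev_L' (2 / c₁ + 1)
  have hex : ∀ n : ℕ, ∃ (X : Set {a : ℕ // Even a ∧ a ≤ 2 * n}) (Y : Set {a : ℕ // Even a ∧ 2 ≤ a ∧ a ≤ 2 * n}),
      n₁ + n₂ + n₃ + 2 ≤ n → (Bounded (goldbach n) X (C * (C + 3) + C) (min c (c₁ / 2)) V n ∧
        Bounded (nearGoldbach n) Y (C * (C + 3) + C) (min c (c₁ / 2)) V n) ∧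
        (∀ a, c₁ * (n / Real.log n ^ 2) ≤ (((goldbach n).neighborSet a).ncard : ℝ) → a ∈ X) ∧
        (∀ a, c₁ * (n / Real.log n ^ 2) ≤ (((nearGoldbach n).neighborSet a).ncard : ℝ) → a ∈ Y) := by
    intro n
    by_cases hn : n₁ + n₂ + n₃ + 2 ≤ n
    · obtain ⟨q1, q2⟩ := h2 n (by omega)
      have a3 := h3 n (by omega)
      have hn0 : (0 : ℝ) < n := by exact_mod_cast (by omega : 0 < n)
      have hL1 : 1 ≤ Real.log (n : ℝ) := by
        have : 0 < 2 / c₁ := by positivity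
        linarith
      have hL0 : 0 < Real.log (n : ℝ) := by linarith
      have hpos : 0 < (n : ℝ) / Real.log n ^ 2 := by positivity
      have hlarge : (n : ℝ) / Real.log n ^ (V + 3) ≤ c₁ / 2 * (n / Real.log n ^ 2) := by
        have e1 : (n : ℝ) / Real.log n ^ (V + 3) = (1 / Real.log n ^ (V + 1)) * (n / Real.log n ^ 2) := by
          rw [show V + 3 = (V + 1) + 2 by ring, pow_add _ (V + 1) 2]
          field_simp
        rw [e1]
        apply mul_le_mul_of_nonneg_right _ hpos.le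
        rw [div_le_iff₀ (by positivity)]
        have e2 : Real.log (n : ℝ) ≤ Real.log n ^ (V + 1) := le_self_pow₀ hL1 (by omega)
        have e3 : 2 / c₁ ≤ Real.log (n : ℝ) := by linarith
        rw [div_le_iff₀ hc₁] at e3
        nlinarith
      obtain ⟨X, ⟨x1, x2, x3, x4⟩, x5⟩ := Pool.Agent.N469.GG.absorb (goldbach n) C c c₁ (V + 3) n q1 hc₁ hpos hlarge
      obtain ⟨Y, ⟨y1, y2, y3, y4⟩, y5⟩ := Pool.Agent.N469.GG.absorb (nearGoldbach n) C c c₁ (V + 3) n q2 hc₁ hpos hlarge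
      have hU : (n : ℝ) / Real.log n ^ (V + 3) ≤ n / Real.log n ^ V :=
        div_le_div_of_nonneg_left hn0.le (by positivity) (pow_le_pow_right₀ hL1 (by omega))
      exact ⟨X, Y, fun _ => ⟨⟨⟨x1.trans hU, x2, x3, x4⟩, ⟨y1.trans hU, y2, y3, y4⟩⟩, x5, y5⟩⟩
    · exact ⟨Set.univ, Set.univ, fun h => absurd h hn⟩
  choose X Y hXY using hex
  refine ⟨X, Y, ⟨n₁ + n₂ + n₃ + 2, fun n hn => (hXY n hn).1⟩, fun f x₀ K hf δ₀ ε₀ hδ₀ hε₀ hε₀2 κ hκ A B W r => ?_⟩
  have hf' : Ord f x₀ K := hf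
  obtain ⟨k1, hk1⟩ := Pool.Agent.W2helper30.AN.an_pair hf' δ₀ ε₀ hδ₀ hε₀ hε₀2 κ hκ r (B + 3) (W + 1) A (1 / 2) (by norm_num)
  obtain ⟨k2, hk2⟩ := Pool.Agent.W2helper30.AN.an_gold hf' δ₀ ε₀ hδ₀ hε₀ hε₀2 κ hκ 1 A (W + 1) (r + 1) 0 (1 / 2) (by norm_num)
    (fun m => Pool.Agent.W93.PG.WinP (1 / 2) 1 m) (fun m _ _ h => h)
  obtain ⟨k3, hk3⟩ := eventually_atTop.1 (Pool.Agent.W2helper30.PN.ev_loge (B + 2))
  obtain ⟨k4, hk4⟩ := Pool.Agent.W2helper30.AN.Rg.big K B (n₁ + n₂ + n₃ + 4) δ₀ ε₀ hδ₀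
  refine ⟨k1 + k2 + k3 + k4 + 1, fun M hM U hU n hn1 hn2 c₀ hc₀ => ?_⟩
  have hU' : Rg K δ₀ ε₀ M U := ⟨hU.1, hU.2⟩
  have hn := hk4 M (by omega) U hU' n hn1
  obtain ⟨-, hX, hY⟩ := hXY n (by omega)
  obtain ⟨d0, d1, d2⟩ := hdeg n (by omega)
  have hlU : (B : ℝ) + 2 ≤ Real.log U := (hk3 M (by omega)).trans (hU'.log_le hf.2.1 hδ₀ (by omega))
  have hB0 : (0 : ℝ) ≤ B := Nat.cast_nonneg _
  have hn0 : (0 : ℝ) ≤ n := Nat.cast_nonneg _
  have hL0 : 0 < Real.log U := by linarith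
  have u1 := hk1 M (by omega) U hU' n (hn1.trans (by push_cast; linarith)) hn2 (n / 2) (by omega) (by
      calc n ≤ 3 * (n / 2) := by omega
        _ ≤ (B + 3) * (n / 2) := Nat.mul_le_mul_right _ (by omega)) c₀ (hc₀.trans (by push_cast; linarith))
  have u2 := hk2 M (by omega) U hU' c₀ (by
    refine hc₀.trans ?_
    have h4 : 0 ≤ U / (M : ℝ) ^ K * Real.log U ^ r := hn0.trans hn2
    calc (B : ℝ) * n ≤ Real.log U * (U / (M : ℝ) ^ K * Real.log U ^ r) := by
          apply mul_le_mul _ hn2 hn0 hL0.le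
          linarith
      _ = U / (M : ℝ) ^ K * Real.log U ^ (r + 1) := by rw [pow_succ]; ring)
  refine almost_of ((u1.and u2).le ?_) fun v hv a ha ha2 => ?_
  · rw [← add_div, div_le_div_iff₀ (by positivity) (by positivity), pow_succ]
    have h1 : 0 < Real.log U ^ W := by positivity
    nlinarith
  · obtain ⟨hv1, hv2⟩ := hv
    -- the vertex `a` has a small degree
    have hsmall : Even a ∧ a ≤ 2 * n ∧ ((Pool.Agent.N469.GG.Nb n a).card : ℝ) < c₁ * (n / Real.log n ^ 2) := by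
      rcases ha2 with ⟨h, ha⟩ | ⟨h, ha⟩
      · refine ⟨h.1, h.2, ?_⟩
        by_contra hcon
        push Not at hcon
        refine ha (hX _ (hcon.trans ?_))
        exact_mod_cast Pool.Agent.N469.GG.nb_gold n a h
      · refine ⟨h.1, h.2.2, ?_⟩
        by_contra hcon
        push Not at hcon
        refine ha (hY _ (hcon.trans ?_))
        exact_mod_cast Pool.Agent.N469.GG.nb_near n a h
    obtain ⟨hev, hle, hlt⟩ := hsmall
    rcases Nat.eq_zero_or_pos a with h0 | h0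
    · rw [h0] at hlt
      linarith
    rcases le_or_gt a n with h5 | h5
    · have h6 := hv1 (a : ℤ) (by exact_mod_cast ha) (by exact_mod_cast h0)
      rw [Int.toNat_natCast] at h6
      obtain ⟨k, hk⟩ := hev
      have := d1 _ a ⟨k, hk⟩ (by omega) h5 h6
      linarith
    · have h6 := hv2 (a : ℤ) (by exact_mod_cast ha) (by exact_mod_cast h0) (by
        obtain ⟨k, hk⟩ := hev
        exact ⟨k, by exact_mod_cast hk⟩)
      rw [Int.toNat_natCast] at h6
      have := d2 a hev h5 hle h6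
      linarith

end Pool.Agent.Results.MP_443e5f_co.AnalyticSparseFamilies
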