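import Pool.Agent.W2helper88.GR.Asm

/-!
# Goldbach graphs with one prime and one almost prime have bounded diameter

There are `r` and `N` such that for all `n ≥ N` the graph on `{0, 2, …, 2 n}` in which distinct `a`, `b` are
adjacent iff `(a + b)/2` is an odd prime less than `2 n` and `|a - b|/2` is an odd number greater than `1` with
at most `r` prime factors is connected with diameter at most `15`. The same holds for the graph on `{2, …, 2 n}`.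
-/

set_option autoImplicit false

namespace Pool.Agent.Results.MP_443e5f_co.PrimePlusAlmostPrime

open Pool.Agent.W2helper88.GR

/-- `m` is an odd prime less than `2 n`. -/
def OddPrimeBelow (n m : ℕ) : Prop := m.Prime ∧ Odd m ∧ m < 2 * n

/-- `m` is an odd number with `1 < m < 2 n` and with at most `r` prime factors, counted with multiplicity. -/
def OddAlmostPrimeBelow (r n m : ℕ) : Prop := 1 < m ∧ Odd m ∧ m < 2 * n ∧ m.primeFactorsList.length ≤ r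

/-- The graph on the set `S` of natural numbers: distinct `a`, `b` are adjacent iff `(a + b)/2` is an odd
prime less than `2 n` and `|a - b|/2` is an odd number between `1` and `2 n` with at most `r` prime factors. -/
def H (r n : ℕ) (S : Set ℕ) : SimpleGraph S where
  Adj a b := a ≠ b ∧ OddPrimeBelow n (((a : ℕ) + b) / 2) ∧ OddAlmostPrimeBelow r n (Nat.dist a b / 2)
  symm := ⟨fun a b h => ⟨h.1.symm, by rw [add_comm (b : ℕ)]; exact h.2.1,
    by rw [Nat.dist_comm]; exact h.2.2⟩⟩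
  loopless := ⟨fun _ h => h.1 rfl⟩

/-- The graph is connected with diameter at most `C`. -/
def DiameterAtMost {V : Type} (G : SimpleGraph V) (C : ℕ) : Prop := G.Connected ∧ ∀ u v, G.dist u v ≤ C

/-! ### Walks -/

/-- there is a walk of length at most `k` -/
def Wi {V : Type} (G : SimpleGraph V) (k : ℕ) (u v : V) : Prop := ∃ w : G.Walk u v, w.length ≤ k

variable {V : Type} {G : SimpleGraph V}

lemma Wi.trans {k l : ℕ} {u v w : V} (h1 : Wi G k u v) (h2 : Wi G l v w) : Wi G (k + l) u w := by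
  obtain ⟨p, hp⟩ := h1
  obtain ⟨q, hq⟩ := h2
  exact ⟨p.append q, by rw [SimpleGraph.Walk.length_append]; omega⟩

lemma Wi.symm {k : ℕ} {u v : V} (h : Wi G k u v) : Wi G k v u := by
  obtain ⟨p, hp⟩ := h
  exact ⟨p.reverse, by rw [SimpleGraph.Walk.length_reverse]; omega⟩

lemma Wi.mono {k l : ℕ} {u v : V} (h : k ≤ l) (h1 : Wi G k u v) : Wi G l u v := by
  obtain ⟨p, hp⟩ := h1
  exact ⟨p, hp.trans h⟩

lemma Wi.adj {u v : V} (h : G.Adj u v) : Wi G 1 u v := ⟨SimpleGraph.Walk.cons h SimpleGraph.Walk.nil, by simp⟩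

lemma Wi.rfl' (u : V) (k : ℕ) : Wi G k u u := ⟨SimpleGraph.Walk.nil, by simp⟩

lemma diam_of [Nonempty V] {k : ℕ} (h : ∀ u v : V, Wi G k u v) : DiameterAtMost G k := by
  constructor
  · refine ⟨fun u v => ?_⟩
    obtain ⟨p, _⟩ := h u v
    exact p.reachable
  · intro u v
    obtain ⟨p, hp⟩ := h u v
    exact (SimpleGraph.dist_le p).trans hp

/-! ### The edges -/

lemma length_lt (m n Y K : ℕ) (hY : 1 ≤ Y) (hm : 1 ≤ m) (hmn : m ≤ n) (hn : n < (Y + 1) ^ K)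
    (h : ∀ p : ℕ, p.Prime → p ∣ m → Y + 1 ≤ p) : m.primeFactorsList.length < K := by
  have h1 : (Y + 1) ^ m.primeFactorsList.length ≤ m.primeFactorsList.prod := by
    apply List.pow_card_le_prod
    intro p hp
    exact h p (Nat.prime_of_mem_primeFactorsList hp) (Nat.dvd_of_mem_primeFactorsList hp)
  rw [Nat.prod_primeFactorsList (by omega)] at h1
  exact (Nat.pow_lt_pow_iff_right (by omega)).1 (h1.trans_lt (hmn.trans_lt hn))

variable {S : Set ℕ} {n : ℕ}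

/-- the vertex `2 x` -/
def pt (hS : ∀ a : ℕ, 1 ≤ a → a ≤ n → 2 * a ∈ S) (x : ℤ) (h : 1 ≤ x ∧ x ≤ n) : S :=
  ⟨2 * x.toNat, hS x.toNat (by omega) (by omega)⟩

lemma adj_pt (hS : ∀ a : ℕ, 1 ≤ a → a ≤ n → 2 * a ∈ S) (K : ℕ) (hn : 9 ≤ n) (hK : 1 ≤ K) (hY : 3 ≤ rt K n) (x y : ℤ)
    (hx : 1 ≤ x ∧ x ≤ n) (hy : 1 ≤ y ∧ y ≤ n) (he : Eg n (rt K n) x y) : (H K n S).Adj (pt hS x hx) (pt hS y hy) := by
  obtain ⟨m1, m2, m3, m4⟩ := Eg_mod hn hY he
  obtain ⟨_, _, h3, h4, h5, h6⟩ := he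
  have hne : x ≠ y := by
    rintro rfl
    exact m3 (by simp)
  have e1 : (2 * x.toNat + 2 * y.toNat) / 2 = (x + y).natAbs := by omega
  have e2 : Nat.dist (2 * x.toNat) (2 * y.toNat) / 2 = (y - x).natAbs := by
    unfold Nat.dist
    omega
  refine ⟨?_, ?_, ?_⟩
  · intro h
    have := congrArg Subtype.val h
    unfold pt at this
    simp only at this
    omega
  · show OddPrimeBelow n ((2 * x.toNat + 2 * y.toNat) / 2)
    rw [e1]
    refine ⟨h3, ?_, by omega⟩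
    rcases h3.eq_two_or_odd' with h | h
    · exfalso
      omega
    · exact h
  · show OddAlmostPrimeBelow K n (Nat.dist (2 * x.toNat) (2 * y.toNat) / 2)
    rw [e2]
    have hodd : (y - x).natAbs % 2 = 1 := by omega
    refine ⟨by omega, Nat.odd_iff.2 hodd, by omega, ?_⟩
    apply le_of_lt
    apply length_lt (y - x).natAbs n (rt K n) K (by omega) (by omega) (by omega) (lt_rt K n hK)
    intro p hp hd
    by_contra hc
    exact h5 p hp (by omega) (Int.natCast_dvd.2 hd)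

lemma adj_small (hS : ∀ a : ℕ, 1 ≤ a → a ≤ n → 2 * a ∈ S) (K : ℕ) (hn : 9 ≤ n) (hK : 1 ≤ K) :
    (H K n S).Adj (pt hS 1 (by omega)) (pt hS 4 (by omega)) := by
  refine ⟨?_, ?_, ?_⟩
  · intro h
    have := congrArg Subtype.val h
    unfold pt at this
    simp only at this
    omega
  · show OddPrimeBelow n ((2 * 1 + 2 * 4) / 2)
    exact ⟨by norm_num, by decide, by omega⟩
  · show OddAlmostPrimeBelow K n (Nat.dist (2 * 1) (2 * 4) / 2)
    have : Nat.dist (2 * 1) (2 * 4) / 2 = 3 := by decide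
    rw [this]
    refine ⟨by norm_num, by decide, by omega, ?_⟩
    rw [Nat.primeFactorsList_prime Nat.prime_three]
    exact hK

/-- the data of the graph -/
structure Good (n K : ℕ) : Prop where
  n9 : 9 ≤ n
  K1 : 1 ≤ K
  Y3 : 3 ≤ rt K n
  nbr : ∀ v : ℤ, 1 ≤ v → v ≤ n → ∃ y, Eg n (rt K n) v y
  six : ∀ v v' : ℤ, 1 ≤ v → v ≤ n → 1 ≤ v' → v' ≤ n → Sm v v' → P6 n (rt K n) v v'

lemma six_walk {K : ℕ} (hg : Good n K) (hS : ∀ a : ℕ, 1 ≤ a → a ≤ n → 2 * a ∈ S) (x y : ℤ) (hx : 1 ≤ x ∧ x ≤ n) (hy : 1 ≤ y ∧ y ≤ n)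
    (hs : Sm x y) : Wi (H K n S) 6 (pt hS x hx) (pt hS y hy) := by
  obtain ⟨a, b, c, d, e, h1, h2, h3, h4, h5, h6⟩ := hg.six x y hx.1 hx.2 hy.1 hy.2 hs
  have ad := adj_pt hS K hg.n9 hg.K1 hg.Y3
  have w1 := Wi.adj (ad x a h1.1 h1.2.1 h1)
  have w2 := Wi.adj (ad b a h2.1 h2.2.1 h2)
  have w3 := Wi.adj (ad b c h3.1 h3.2.1 h3)
  have w4 := Wi.adj (ad d c h4.1 h4.2.1 h4)
  have w5 := Wi.adj (ad d e h5.1 h5.2.1 h5)
  have w6 := Wi.adj (ad y e h6.1 h6.2.1 h6)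
  exact ((((w1.trans w2.symm).trans w3).trans w4.symm).trans w5).trans w6.symm

lemma thirteen {K : ℕ} (hg : Good n K) (hS : ∀ a : ℕ, 1 ≤ a → a ≤ n → 2 * a ∈ S) (x y : ℤ) (hx : 1 ≤ x ∧ x ≤ n) (hy : 1 ≤ y ∧ y ≤ n)
    (h3 : ¬ (3 : ℤ) ∣ x) (h3' : ¬ (3 : ℤ) ∣ y) : Wi (H K n S) 13 (pt hS x hx) (pt hS y hy) := by
  have n9 := hg.n9
  have h1n : (1 : ℤ) ≤ 1 ∧ (1 : ℤ) ≤ n := by omega
  have h4n : (1 : ℤ) ≤ 4 ∧ (4 : ℤ) ≤ n := by omega
  have h14 := Wi.adj (adj_small hS K hg.n9 hg.K1)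
  have key : ∀ (u v : ℤ) (hu : 1 ≤ u ∧ u ≤ n) (hv : 1 ≤ v ∧ v ≤ n), ¬ (3 : ℤ) ∣ u → ¬ (3 : ℤ) ∣ v → ¬ (2 : ℤ) ∣ u → (2 : ℤ) ∣ v →
      Wi (H K n S) 13 (pt hS u hu) (pt hS v hv) := by
    intro u v hu hv a1 a2 a3 a4
    have w1 := six_walk hg hS u 1 hu h1n (by unfold Sm; omega)
    have w2 := six_walk hg hS 4 v h4n hv (by unfold Sm; omega)
    exact (w1.trans h14).trans w2
  by_cases hx2 : (2 : ℤ) ∣ x <;> by_cases hy2 : (2 : ℤ) ∣ y
  · exact (six_walk hg hS x y hx hy (by unfold Sm; omega)).mono (by norm_num)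
  · exact (key y x hy hx h3' h3 hy2 hx2).symm
  · exact key x y hx hy h3 h3' hx2 hy2
  · exact (six_walk hg hS x y hx hy (by unfold Sm; omega)).mono (by norm_num)

lemma star {K : ℕ} (hg : Good n K) (hS : ∀ a : ℕ, 1 ≤ a → a ≤ n → 2 * a ∈ S) (x : ℤ) (hx : 1 ≤ x ∧ x ≤ n) :
    ∃ (y : ℤ) (hy : 1 ≤ y ∧ y ≤ n), ¬ (3 : ℤ) ∣ y ∧ Wi (H K n S) 1 (pt hS x hx) (pt hS y hy) := by
  by_cases h3 : (3 : ℤ) ∣ x
  · obtain ⟨y, hy⟩ := hg.nbr x hx.1 hx.2
    obtain ⟨_, m2, _, _⟩ := Eg_mod hg.n9 hg.Y3 hy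
    exact ⟨y, hy.2.1, by omega, Wi.adj (adj_pt hS K hg.n9 hg.K1 hg.Y3 x y hx hy.2.1 hy)⟩
  · exact ⟨x, hx, h3, Wi.rfl' _ _⟩

lemma fifteen {K : ℕ} (hg : Good n K) (hS : ∀ a : ℕ, 1 ≤ a → a ≤ n → 2 * a ∈ S) (x y : ℤ) (hx : 1 ≤ x ∧ x ≤ n) (hy : 1 ≤ y ∧ y ≤ n) :
    Wi (H K n S) 15 (pt hS x hx) (pt hS y hy) := by
  obtain ⟨x', hx', a1, w1⟩ := star hg hS x hx
  obtain ⟨y', hy', a2, w2⟩ := star hg hS y hy
  exact (w1.trans (thirteen hg hS x' y' hx' hy' a1 a2)).trans w2.symm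

lemma good_ev : ∃ K N : ℕ, ∀ n : ℕ, N ≤ n → Good n K := by
  obtain ⟨Ka, ha⟩ := paths
  obtain ⟨Kb, hb⟩ := one_nbr
  refine ⟨max (max Ka Kb) 1, ?_⟩
  rw [← Filter.eventually_atTop]
  filter_upwards [ha (max (max Ka Kb) 1) (le_trans (le_max_left _ _) (le_max_left _ _)),
    hb (max (max Ka Kb) 1) (le_trans (le_max_right _ _) (le_max_left _ _)),
    rt_ge (max (max Ka Kb) 1) 3 (le_max_right _ _), Filter.eventually_ge_atTop 9] with n h1 h2 h3 h4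
  exact ⟨h4, le_max_right _ _, h3, h2, h1⟩

/-- **The Goldbach graph with one prime and one almost prime has bounded diameter.** -/
theorem result : ∃ r N : ℕ, ∀ n : ℕ, N ≤ n →
    DiameterAtMost (H r n {a : ℕ | Even a ∧ a ≤ 2 * n}) 15 ∧
    DiameterAtMost (H r n {a : ℕ | Even a ∧ 2 ≤ a ∧ a ≤ 2 * n}) 15 := by
  obtain ⟨K, N, hN⟩ := good_ev
  refine ⟨K, N, fun n hn => ?_⟩
  have hg := hN n hn
  have n9 := hg.n9
  constructor
  · have hS : ∀ a : ℕ, 1 ≤ a → a ≤ n → 2 * a ∈ {a : ℕ | Even a ∧ a ≤ 2 * n} := fun a h1 h2 => ⟨even_two_mul a, by omega⟩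
    have : Nonempty {a : ℕ | Even a ∧ a ≤ 2 * n} := ⟨⟨0, ⟨by decide, by omega⟩⟩⟩
    apply diam_of
    -- paths from `0`
    obtain ⟨z, hz⟩ : ∃ z : {a : ℕ | Even a ∧ a ≤ 2 * n}, z = ⟨0, ⟨by decide, by omega⟩⟩ := ⟨_, rfl⟩
    have h0 : ∀ p : ℕ, (hp : p.Prime) → p ≠ 2 → (hpn : p ≤ n) → (hk : (1 : ℤ) ≤ p ∧ (p : ℤ) ≤ n) →
        (H K n {a : ℕ | Even a ∧ a ≤ 2 * n}).Adj z (pt hS p hk) := by
      intro p hp hp2 hpn hk
      have hpodd : Odd p := hp.odd_of_ne_two hp2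
      refine ⟨?_, ?_, ?_⟩
      · intro h
        have := congrArg Subtype.val h
        rw [hz] at this
        unfold pt at this
        simp only [Int.toNat_natCast] at this
        have := hp.pos
        omega
      · show OddPrimeBelow n (((z : ℕ) + 2 * (p : ℤ).toNat) / 2)
        rw [hz, Int.toNat_natCast]
        have e : (0 + 2 * p) / 2 = p := by omega
        show OddPrimeBelow n ((0 + 2 * p) / 2)
        rw [e]
        exact ⟨hp, hpodd, by omega⟩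
      · show OddAlmostPrimeBelow K n (Nat.dist z (2 * (p : ℤ).toNat) / 2)
        rw [hz, Int.toNat_natCast]
        have e : Nat.dist 0 (2 * p) / 2 = p := by unfold Nat.dist; omega
        show OddAlmostPrimeBelow K n (Nat.dist 0 (2 * p) / 2)
        rw [e]
        refine ⟨hp.one_lt, hpodd, by omega, ?_⟩
        rw [Nat.primeFactorsList_prime hp]
        exact hg.K1
    have hodd : ∀ (x : ℤ) (hx : 1 ≤ x ∧ x ≤ n), ¬ (2 : ℤ) ∣ x → Wi (H K n {a : ℕ | Even a ∧ a ≤ 2 * n}) 7 z (pt hS x hx) := by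
      intro x hx h2
      have k3 : (1 : ℤ) ≤ ((3 : ℕ) : ℤ) ∧ ((3 : ℕ) : ℤ) ≤ n := ⟨by norm_num, by exact_mod_cast (by omega : 3 ≤ n)⟩
      have k5 : (1 : ℤ) ≤ ((5 : ℕ) : ℤ) ∧ ((5 : ℕ) : ℤ) ≤ n := ⟨by norm_num, by exact_mod_cast (by omega : 5 ≤ n)⟩
      by_cases h3 : (3 : ℤ) ∣ x
      · have w := six_walk hg hS ((3 : ℕ) : ℤ) x k3 hx ⟨by push_cast; omega, fun _ => h3, fun _ => by norm_num⟩
        exact (Wi.adj (h0 3 Nat.prime_three (by norm_num) (by omega) k3)).trans w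
      · have w := six_walk hg hS ((5 : ℕ) : ℤ) x k5 hx ⟨by push_cast; omega, fun h => absurd h (by norm_num), fun h => absurd h h3⟩
        exact (Wi.adj (h0 5 Nat.prime_five (by norm_num) (by omega) k5)).trans w
    have hall : ∀ (x : ℤ) (hx : 1 ≤ x ∧ x ≤ n), Wi (H K n {a : ℕ | Even a ∧ a ≤ 2 * n}) 8 z (pt hS x hx) := by
      intro x hx
      by_cases h2 : (2 : ℤ) ∣ x
      · obtain ⟨y, hy⟩ := hg.nbr x hx.1 hx.2
        obtain ⟨m1, _, _, _⟩ := Eg_mod hg.n9 hg.Y3 hy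
        have w1 := hodd y hy.2.1 (by omega)
        exact w1.trans (Wi.adj (adj_pt hS K hg.n9 hg.K1 hg.Y3 x y hx hy.2.1 hy)).symm
      · exact (hodd x hx h2).mono (by norm_num)
    have hcases : ∀ u : {a : ℕ | Even a ∧ a ≤ 2 * n}, u = z ∨ ∃ (x : ℤ) (hx : 1 ≤ x ∧ x ≤ n), u = pt hS x hx := by
      rintro ⟨u, hu1, hu2⟩
      obtain ⟨a, ha⟩ := hu1
      rcases Nat.eq_zero_or_pos a with h | h
      · left
        rw [hz]
        apply Subtype.ext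
        show u = 0
        omega
      · right
        refine ⟨a, by omega, ?_⟩
        apply Subtype.ext
        show u = 2 * (a : ℤ).toNat
        omega
    intro u v
    rcases hcases u with hu | ⟨x, hx, hu⟩ <;> rcases hcases v with hv | ⟨y, hy, hv⟩
    · rw [hu, hv]; exact Wi.rfl' _ _
    · rw [hu, hv]; exact (hall y hy).mono (by norm_num)
    · rw [hu, hv]; exact (hall x hx).symm.mono (by norm_num)
    · rw [hu, hv]; exact fifteen hg hS x y hx hy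
  · have hS : ∀ a : ℕ, 1 ≤ a → a ≤ n → 2 * a ∈ {a : ℕ | Even a ∧ 2 ≤ a ∧ a ≤ 2 * n} :=
      fun a h1 h2 => ⟨even_two_mul a, by omega, by omega⟩
    have : Nonempty {a : ℕ | Even a ∧ 2 ≤ a ∧ a ≤ 2 * n} := ⟨⟨2, ⟨by decide, by omega, by omega⟩⟩⟩
    apply diam_of
    have hcases : ∀ u : {a : ℕ | Even a ∧ 2 ≤ a ∧ a ≤ 2 * n}, ∃ (x : ℤ) (hx : 1 ≤ x ∧ x ≤ n), u = pt hS x hx := by
      rintro ⟨u, hu1, hu2, hu3⟩
      obtain ⟨a, ha⟩ := hu1
      refine ⟨a, by omega, ?_⟩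
      apply Subtype.ext
      show u = 2 * (a : ℤ).toNat
      omega
    intro u v
    obtain ⟨x, hx, hu⟩ := hcases u
    obtain ⟨y, hy, hv⟩ := hcases v
    rw [hu, hv]
    exact fifteen hg hS x y hx hy

end Pool.Agent.Results.MP_443e5f_co.PrimePlusAlmostPrime
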