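import Pool.Agent.W2helper62.GG.G5

set_option autoImplicit false

/-!
# The Goldbach graphs of the random sieve model of Banks, Ford and Tao have diameter exactly five

For every prime `p` a residue class `a p` modulo `p` is chosen uniformly and independently. The random
set `R` consists of the natural numbers `m ≥ e ^ 2` which avoid the class `a p` for every prime `p` with
`∏_(q ≤ p) (1 - 1 / q) ≥ 1 / log m`; this is the random sieve model for the primes of Banks, Ford and
Tao. The set `P = {3, 5, 7} ∪ R` plays the role of the set of the odd primes. We assume `a 2 = 0` and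
`a 3 = 0` (an event of probability `1 / 6`), which means that the primes `2` and `3` are sieved as in the
sieve of Eratosthenes.

We prove that, almost surely on this event, for all large `n` the finite Goldbach graph and the finite near
Goldbach graph, with `P` in place of the set of the odd primes, are connected and have diameter exactly `5`.
-/

namespace Pool.Agent.Results.MP_443e5f_co.RandomSieveDiameterFive

open Filter MeasureTheory

/-- the product `V y = ∏_(p ≤ y, p prime) (1 - 1 / p)` -/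
noncomputable def V (y : ℕ) : ℝ := ∏ p ∈ (Finset.Icc 1 y).filter Nat.Prime, (1 - 1 / (p : ℝ))

/-- the random set: all `m ≥ e ^ 2` outside the chosen class `a p` for every prime `p` with
`V p ≥ 1 / log m` -/
def R (a : (p : Nat.Primes) → ZMod (p : ℕ)) : Set ℕ :=
  {m | Real.exp 2 ≤ m ∧ ∀ p : Nat.Primes, 1 ≤ V (p : ℕ) * Real.log m → ((m : ℕ) : ZMod (p : ℕ)) ≠ a p}

/-- the chosen classes `a p`, `p` prime, are independent and uniform modulo `p` -/
noncomputable def law : Measure ((p : Nat.Primes) → ZMod (p : ℕ)) :=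
  Measure.infinitePi fun p : Nat.Primes => ProbabilityTheory.uniformOn (Set.univ : Set (ZMod (p : ℕ)))

/-- An element of `P = {3, 5, 7} ∪ R` less than `2 n`. -/
def Below (a : (p : Nat.Primes) → ZMod (p : ℕ)) (n m : ℕ) : Prop :=
  (m = 3 ∨ m = 5 ∨ m = 7 ∨ m ∈ R a) ∧ m < 2 * n

/-- The finite Goldbach graph of `P` on `{0, 2, 4, …, 2 n}`: distinct `b`, `c` are adjacent iff
`(b + c) / 2` and `|b - c| / 2` are elements of `P` less than `2 n`. -/
def goldbach (a : (p : Nat.Primes) → ZMod (p : ℕ)) (n : ℕ) : SimpleGraph {b : ℕ // Even b ∧ b ≤ 2 * n} where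
  Adj b c := b ≠ c ∧ Below a n (((b : ℕ) + c) / 2) ∧ Below a n (Nat.dist b c / 2)
  symm := ⟨fun b c h => ⟨h.1.symm, by rw [add_comm (c : ℕ)]; exact h.2.1,
    by rw [Nat.dist_comm]; exact h.2.2⟩⟩
  loopless := ⟨fun _ h => h.1 rfl⟩

/-- The finite near Goldbach graph of `P` on `{2, 4, …, 2 n}`: distinct `b`, `c` are adjacent iff
each of `(b + c) / 2` and `|b - c| / 2` is `1` or an element of `P` less than `2 n`. -/
def nearGoldbach (a : (p : Nat.Primes) → ZMod (p : ℕ)) (n : ℕ) :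
    SimpleGraph {b : ℕ // Even b ∧ 2 ≤ b ∧ b ≤ 2 * n} where
  Adj b c := b ≠ c ∧ (((b : ℕ) + c) / 2 = 1 ∨ Below a n (((b : ℕ) + c) / 2)) ∧
    (Nat.dist b c / 2 = 1 ∨ Below a n (Nat.dist b c / 2))
  symm := ⟨fun b c h => ⟨h.1.symm, by rw [add_comm (c : ℕ)]; exact h.2.1,
    by rw [Nat.dist_comm]; exact h.2.2⟩⟩
  loopless := ⟨fun _ h => h.1 rfl⟩

/-- The event `a 2 = 0`, `a 3 = 0` has probability `1 / 6`; almost surely on this event, for all large `n`
the finite Goldbach graph and the finite near Goldbach graph of `P` are connected and have diameter exactly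
`5`. -/
theorem result : law {a | a ⟨2, Nat.prime_two⟩ = 0 ∧ a ⟨3, Nat.prime_three⟩ = 0} = 1 / 6 ∧
    ∀ᵐ a ∂law, a ⟨2, Nat.prime_two⟩ = 0 → a ⟨3, Nat.prime_three⟩ = 0 → ∀ᶠ n : ℕ in atTop,
      ((goldbach a n).Connected ∧ (goldbach a n).ediam = 5) ∧
      ((nearGoldbach a n).Connected ∧ (nearGoldbach a n).ediam = 5) := by
  refine ⟨Pool.Agent.W2helper62.GG.prob_Zero, ?_⟩
  show ∀ᵐ a ∂Pool.Agent.W2helper64.RS.law, _
  filter_upwards [Pool.Agent.W2helper62.GG.ae_final] with a ha h2 h3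
  filter_upwards [ha ⟨h2, h3⟩, eventually_ge_atTop 2] with n hn hn2
  have hmem : ∀ m : ℕ, m ∈ Pool.Agent.W2helper62.GG.Pm a ↔ (m = 3 ∨ m = 5 ∨ m = 7 ∨ m ∈ R a) := fun m => Iff.rfl
  constructor
  · obtain ⟨hup, hlow⟩ := hn (Pool.Agent.W2helper62.GG.Pm a) {x | x ≤ n} (le_refl _) (fun m hm => Or.inr hm)
      (fun x _ h => h) (fun x h => h)
    refine Pool.Agent.W2helper62.GG.ediam_five (G := goldbach a n) (f := fun b => (b : ℕ) / 2) ?_ ?_ ?_ ?_ hup hlow
    · rintro ⟨b, hb, hbn⟩ ⟨c, hc, hcn⟩ h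
      simp only at h
      obtain ⟨x, rfl⟩ := hb
      obtain ⟨y, rfl⟩ := hc
      apply Subtype.ext
      show x + x = y + y
      omega
    · intro x hx
      exact ⟨⟨2 * x, even_two_mul x, Nat.mul_le_mul_left 2 hx⟩, by show 2 * x / 2 = x; omega⟩
    · rintro ⟨b, hb, hbn⟩
      show b / 2 ≤ n
      omega
    · rintro ⟨b, ⟨x, rfl⟩, hb⟩ ⟨c, ⟨y, rfl⟩, hc⟩
      have e1 : (x + x) / 2 = x := by omega
      have e2 : (y + y) / 2 = y := by omega
      have e3 : (x + x + (y + y)) / 2 = x + y := by omega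
      have e4 : Nat.dist (x + x) (y + y) / 2 = Nat.dist x y := by unfold Nat.dist; omega
      simp only [goldbach, Pool.Agent.W2helper62.GG.HG, Below, e1, e2, e3, e4, ne_eq, Subtype.mk.injEq, hmem,
        Set.mem_ofPred_eq]
      have hd : x ≠ y → Nat.dist x y < 2 * n := fun h => by unfold Nat.dist; omega
      constructor
      · rintro ⟨h1, ⟨h4, h5⟩, ⟨h6, h7⟩⟩
        exact ⟨fun h => h1 (by omega), by omega, by omega, h4, h6⟩
      · rintro ⟨h1, h4, h5, h6, h7⟩
        exact ⟨fun h => h1 (by omega), ⟨h6, by omega⟩, ⟨h7, hd h1⟩⟩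
  · obtain ⟨hup, hlow⟩ := hn {m | m = 1 ∨ m ∈ Pool.Agent.W2helper62.GG.Pm a} {x | 1 ≤ x ∧ x ≤ n}
      (fun m hm => Or.inr hm) (fun m hm => hm) (fun x h1 h => ⟨h1, h⟩) (fun x h => h.2)
    refine Pool.Agent.W2helper62.GG.ediam_five (G := nearGoldbach a n) (f := fun b => (b : ℕ) / 2) ?_ ?_ ?_ ?_ hup hlow
    · rintro ⟨b, hb, hb2, hbn⟩ ⟨c, hc, hc2, hcn⟩ h
      simp only at h
      obtain ⟨x, rfl⟩ := hb
      obtain ⟨y, rfl⟩ := hc
      apply Subtype.ext
      show x + x = y + y
      omega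
    · rintro x ⟨hx1, hx⟩
      exact ⟨⟨2 * x, even_two_mul x, by omega, Nat.mul_le_mul_left 2 hx⟩, by show 2 * x / 2 = x; omega⟩
    · rintro ⟨b, hb, hb2, hbn⟩
      show 1 ≤ b / 2 ∧ b / 2 ≤ n
      omega
    · rintro ⟨b, ⟨x, rfl⟩, hb2, hb⟩ ⟨c, ⟨y, rfl⟩, hc2, hc⟩
      have e1 : (x + x) / 2 = x := by omega
      have e2 : (y + y) / 2 = y := by omega
      have e3 : (x + x + (y + y)) / 2 = x + y := by omega
      have e4 : Nat.dist (x + x) (y + y) / 2 = Nat.dist x y := by unfold Nat.dist; omega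
      simp only [nearGoldbach, Pool.Agent.W2helper62.GG.HG, Below, e1, e2, e3, e4, ne_eq, Subtype.mk.injEq, hmem,
        Set.mem_ofPred_eq]
      have hd : x ≠ y → Nat.dist x y < 2 * n := fun h => by unfold Nat.dist; omega
      constructor
      · rintro ⟨h1, h4, h6⟩
        exact ⟨fun h => h1 (by omega), by omega, by omega, h4.imp id And.left, h6.imp id And.left⟩
      · rintro ⟨h1, h4, h5, h6, h7⟩
        exact ⟨fun h => h1 (by omega), h6.imp id (fun h => ⟨h, by omega⟩), h7.imp id (fun h => ⟨h, hd h1⟩)⟩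

end Pool.Agent.Results.MP_443e5f_co.RandomSieveDiameterFive
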